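import Pool.Agent.H624R3.CP.Stmts

/-! Project COVPROD, task FIN. -/

open MeasureTheory Metric Real

namespace Pool.Agent.H996R3.CPFin

open Pool.Agent.H624R3.CP

/-- the linear equivalence `x ↦ N x` -/
noncomputable def TT {d : ℕ} (N : Matrix (Fin d) (Fin d) ℝ) (h : IsUnit N.det) :
    (Fin d → ℝ) ≃ₗ[ℝ] E d :=
  (N.toLinearEquiv' (N.invertibleOfIsUnitDet h)).trans (WithLp.linearEquiv 2 ℝ (Fin d → ℝ)).symm

theorem TT_apply {d : ℕ} (N : Matrix (Fin d) (Fin d) ℝ) (h : IsUnit N.det) (x : Fin d → ℝ) :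
    TT N h x = WithLp.toLp 2 (N.mulVec x) := rfl

theorem mem_of {d : ℕ} (M : Matrix (Fin d) (Fin d) ℝ) (h : IsUnit (M⁻¹).transpose.det) (m : ℕ)
    (hm : m ≤ d) (r : ℝ) (hr : 0 < r)
    (hS : ∀ (S : Submodule ℝ (E d)), Module.finrank ℝ S = m → ∀ x0 : E d,
      ∃ z : Fin d → ℤ, pn S (x0 - dp M z) ≤ r)
    (A : AffineSubspace ℝ (Fin d → ℝ)) (hA : (A : Set (Fin d → ℝ)).Nonempty)
    (hdim : Module.finrank ℝ A.direction = d - m) :
    ∃ x ∈ (TT (M⁻¹).transpose h) ⁻¹' closedBall (0 : E d) 1, ∃ z : Fin d → ℤ,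
      r • x + (fun j => (z j : ℝ)) ∈ A := by
  obtain ⟨p, hp⟩ := hA
  set T := TT (M⁻¹).transpose h with hT
  let W : Submodule ℝ (E d) := A.direction.map (T : (Fin d → ℝ) →ₗ[ℝ] E d)
  have hW : Module.finrank ℝ W = d - m := by
    rw [← hdim]
    exact (LinearEquiv.finrank_eq (T.submoduleMap A.direction)).symm
  have hWp : Module.finrank ℝ Wᗮ = m := by
    have h1 := W.finrank_add_finrank_orthogonal
    rw [hW, finrank_euclideanSpace, Fintype.card_fin] at h1
    omega
  obtain ⟨z, hz⟩ := hS Wᗮ hWp (T p)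
  set v := T p - dp M z with hv
  refine ⟨r⁻¹ • T.symm ((Wᗮ).starProjection v), ?_, z, ?_⟩
  · rw [Set.mem_preimage, mem_closedBall_zero_iff, map_smul, LinearEquiv.apply_symm_apply,
      norm_smul, norm_inv, Real.norm_eq_abs, abs_of_pos hr, inv_mul_le_iff₀ hr, mul_one]
    exact hz
  · rw [smul_smul, mul_inv_cancel₀ hr.ne', one_smul]
    have hdir : T.symm ((Wᗮ).starProjection v) + (fun j => (z j : ℝ)) - p ∈ A.direction := by
      have h2 : T (T.symm ((Wᗮ).starProjection v) + (fun j => (z j : ℝ)) - p) ∈ W := by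
        rw [map_sub, map_add, LinearEquiv.apply_symm_apply]
        have h3 : T (fun j => (z j : ℝ)) = dp M z := rfl
        rw [h3]
        have h4 : (Wᗮ).starProjection v + dp M z - T p = -(v - (Wᗮ).starProjection v) := by
          rw [hv]
          abel
        rw [h4]
        apply W.neg_mem
        have h5 := Submodule.sub_starProjection_mem_orthogonal (K := Wᗮ) v
        rwa [Submodule.orthogonal_orthogonal] at h5
      obtain ⟨w, hw, hw2⟩ := h2
      have h6 : w = T.symm ((Wᗮ).starProjection v) + (fun j => (z j : ℝ)) - p := T.injective hw2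
      rwa [← h6]
    have h7 := AffineSubspace.vadd_mem_of_mem_direction hdir hp
    rwa [vadd_eq_add, sub_add_cancel] at h7

theorem taskFIN : TaskBALL → TaskFIN := by
  intro hB d M r hd hM hr hS
  have hdetM : M.det ≠ 0 := by
    intro h0
    rw [h0] at hM
    simp at hM
  have hdetN : |(M⁻¹).transpose.det| = 1 := by
    rw [Matrix.det_transpose, Matrix.det_nonsing_inv, Ring.inverse_eq_inv', abs_inv, hM, inv_one]
  have hN0 : (M⁻¹).transpose.det ≠ 0 := by
    intro h0
    rw [h0] at hdetN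
    simp at hdetN
  have hN : IsUnit (M⁻¹).transpose.det := isUnit_iff_ne_zero.2 hN0
  set T := TT (M⁻¹).transpose hN with hT
  have hTc : Continuous T := T.toLinearMap.continuous_of_finiteDimensional
  have hTsc : Continuous T.symm := T.symm.toLinearMap.continuous_of_finiteDimensional
  refine ⟨T ⁻¹' closedBall (0 : E d) 1, ?_, ?_, ?_, ?_⟩
  · exact (convex_closedBall (0 : E d) 1).linear_preimage T.toLinearMap
  · have h1 : T ⁻¹' closedBall (0 : E d) 1 = T.symm '' closedBall (0 : E d) 1 := by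
      ext x
      constructor
      · intro hx
        exact ⟨T x, hx, T.symm_apply_apply x⟩
      · rintro ⟨y, hy, rfl⟩
        rw [Set.mem_preimage, T.apply_symm_apply]
        exact hy
    rw [h1]
    exact (isCompact_closedBall (0 : E d) 1).image hTsc
  · refine ⟨0, ?_⟩
    rw [mem_interior]
    refine ⟨T ⁻¹' ball (0 : E d) 1, Set.preimage_mono ball_subset_closedBall,
      isOpen_ball.preimage hTc, ?_⟩
    rw [Set.mem_preimage, map_zero]
    exact mem_ball_self one_pos
  · have hvol : (volume (T ⁻¹' closedBall (0 : E d) 1)).toReal = vb d := by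
      have h1 : T ⁻¹' closedBall (0 : E d) 1 = (Matrix.toLin' (M⁻¹).transpose) ⁻¹'
          ((WithLp.toLp 2 : (Fin d → ℝ) → E d) ⁻¹' closedBall (0 : E d) 1) := rfl
      rw [h1, MeasureTheory.Measure.addHaar_preimage_linearMap]
      · rw [LinearMap.det_toLin', abs_inv, hdetN, inv_one, ENNReal.ofReal_one, one_mul]
        have h2 := (PiLp.volume_preserving_toLp (Fin d)).measure_preimage
          (s := closedBall (0 : E d) 1) measurableSet_closedBall.nullMeasurableSet
        unfold vb
        rw [← h2]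
      · rw [LinearMap.det_toLin']
        exact hN0
    rw [hvol]
    have hvb : 0 ≤ vb d := ENNReal.toReal_nonneg
    refine mul_le_mul_of_nonneg_right ?_ hvb
    have h3 : ∏ i ∈ Finset.Icc 1 d, r i = ∏ i : Fin d, r (i.val + 1) := by
      rw [← Finset.Ico_succ_right_eq_Icc, Nat.succ_eq_succ, Finset.prod_Ico_eq_prod_range,
        Finset.prod_range]
      simp [add_comm]
    rw [h3]
    refine Finset.prod_le_prod (fun i _ => ?_) (fun i _ => ?_)
    · exact Real.sInf_nonneg fun μ hμ => hμ.1.le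
    · refine csInf_le ⟨0, fun μ hμ => hμ.1.le⟩ ⟨hr _ (by omega) (by omega), ?_⟩
      intro A hA hdim
      exact mem_of M hN (i.val + 1) (by omega) (r (i.val + 1)) (hr _ (by omega) (by omega))
        (fun S hSd x0 => hS (i.val + 1) S (by omega) hSd x0) A hA hdim

end Pool.Agent.H996R3.CPFin
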